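import Mathlib
import Pool.Agent.Q175.EX.St6

/-!
# Zimmer's conjecture for lattices of type E6
-/

set_option autoImplicit false

namespace Pool.Agent.Results.MP_d483fb_an.ExceptionalE6

open Q175.EX

/-- Let `O` be a commutative ring, `L = LA O U` (`U = Uc E₆`) the Lie algebra over `O` with basis the
simple roots `α_1, …, α_6` of `E_6` and `e_x`, `x` a root, and with the bracket `br`: `[h, h'] =
0`, `[h, e_y] = (h, y) e_y`, `[e_x, e_(-x)] = -x`, `[e_x, e_y] = (-1)^(B x y) e_(x + y)` for roots
`x`, `y`, `x + y`; `B` is the bilinear form with matrix `U`, `B x y + B y x = (x, y)`. `C6 *ᵥ x`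
is twice the vector of the coordinates number `1, 2, 3, 4, 5, 8` of `x` in `R^8` (Bourbaki's model
of `E_6`, in which the coordinates number `6`, `7` are the negative of the last). We consider the
following groups `Γ` and numbers `N`:
(1) `Γ = AutL`, the group of the automorphisms of `L`, `u = -1`, `N = 16`;
(2) `Γ = AutL`, `u ∈ O`, `u ^ 2 = -1`, `N = 32`;
(3), (4) `O` has an involution `*`, `u ∈ O`, `u ^ 2 = -1`, `u* u = 1`, and either (3) `η` is a
unit of `O`, `Γ = UniL η l` is the group of the automorphisms of `L` which commute with the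
semilinear map `h ↦ -h*`, `e_x ↦ η^(l x) e_(-x)`, where `l x` is twice the last coordinate of `x`,
and `N = 32`; or
(4) `Γ = TwL` is the group of the automorphisms of `L` which commute with the semilinear map `h ↦
W h*`, `e_x ↦ (-1)^(B_Q x x) e_(W x)`, where `W = W6` is the isometry which changes the signs of
the first four coordinates and `B_Q` is the bilinear form with matrix `Q = Q6`, and `N = 16`. Let
`D = DmL Γ C6 u` be the subgroup generated by the `g ∈ Γ` which map each `e_x` to a power of `u`
times `e_y`, `y` obtained from `x` by sign changes of the coordinates number `1, 2, 3, 4, 5, 8`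
which do not depend on `x`. Let `Γ` act by `C^1` diffeomorphisms on a connected manifold `M` with
`2 ^ k dim M < N`, and suppose that `D` has an orbit with at most `2 ^ k` points, or that `M` has
a finite triangulation invariant under `D` whose Euler characteristic is not divisible by `2 ^ (k
+ 1)`. Then (`RigL`, `FixZ`) the element `z` of `Γ`, `z h = h`, `z e_x = e_x` if the coordinates
of `x` are integers, `z e_x = -e_x` if they are not, acts trivially on `M`. -/
theorem result : (∀ (O : Type) [CommRing O],
      RigL C6 0 (AutL O (Uc CartanMatrix.E₆)) (-1) 16 ∧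
      ∀ u : Oˣ, u * u = -1 → RigL C6 0 (AutL O (Uc CartanMatrix.E₆)) u 32) ∧
    ∀ (O : Type) [CommRing O] [StarRing O] (u : Oˣ), u * u = -1 → star (u : O) * u = 1 →
      (∀ η : Oˣ, RigL C6 0 (UniL O (Uc CartanMatrix.E₆) η (C6 5)) u 32) ∧
      RigL C6 0 (TwL O) u 16 := by
  have h : ∀ i, Even (C6 5 i + C6 0 i) := fun i => par6 i 5 0
  exact ⟨fun O _ => ⟨RigL_congr h (RigL_of _ _ _ _ _ (e6.1 O).1),
      fun u hu => RigL_congr h (RigL_of _ _ _ _ _ ((e6.1 O).2 u hu))⟩,
    fun O _ _ u hu hs => ⟨fun η => RigL_congr h (RigL_of _ _ _ _ _ (e6.2 O η u hu hs)),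
      RigL_of _ _ _ _ _ (e6t u hu hs)⟩⟩

end Pool.Agent.Results.MP_d483fb_an.ExceptionalE6
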