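import Pool.Agent.Q4.ZO.Act
import Pool.Agent.Q4.ZO.Fin
import Pool.Agent.Q190.ZO.DecG
import Pool.Agent.Q190.ZO.Cen
import Pool.Agent.Q190.ZO.Tra
import Pool.Agent.Q210.ZO.Perf
import Pool.Agent.Q210.ZO.Dg
import Pool.Agent.Q150.ZO.NC
import Pool.Agent.Q153.ZO.Nrm

/-!
# Zimmer's conjecture for orthogonal groups over rings of integers
-/

open Matrix NumberField
open scoped Manifold ContDiff

namespace Pool.Agent.Results.MP_d483fb_an.OrthogonalGroups

open Q4.ZO Q4.ZS

/-- Let `O` be the ring of integers of a number field `F`, `p ≥ 3`, `d_1, .., d_q ∈ O` nonzero,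
`n = 2 p + q` and `Γ = Go F p d` the subgroup of the orthogonal group of the quadratic form
`x_1 y_1 + .. + x_p y_p + d_1 z_1² + .. + d_q z_q²` over `O` generated by the Eichler transformations
of the `2 p` standard isotropic vectors and the elementary abelian group `D` of the `2 ^ n` sign
changes of the orthogonal basis `e_i + f_i, e_i - f_i, g_k`. Let `Γ` act by `C^1` diffeomorphisms on a
connected manifold `M` of dimension `< n - 1 - k`. Suppose that `D` has an orbit of at most `2 ^ k`
points in `M`, or that `M` has a finite triangulation invariant under `D` whose Euler characteristic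
is not divisible by `2 ^ (k + 1)`. Then `Γ` acts on `M` through a finite group; more precisely, the
normal closure of the Eichler transformations of level `4 d_1 ⋯ d_q` acts trivially. -/
theorem result (F : Type) [Field F] [NumberField F] (p q k : ℕ) (hp : 3 ≤ p) (d : Fin q → 𝓞 F)
    (hd : ∀ i, d i ≠ 0)
    (E M : Type) [NormedAddCommGroup E] [NormedSpace ℝ E] [FiniteDimensional ℝ E]
    (hE : Module.finrank ℝ E < 2 * p + q - 1 - k)
    [TopologicalSpace M] [T2Space M] [ConnectedSpace M] [ChartedSpace E M]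
    [IsManifold 𝓘(ℝ, E) 1 M] [MulAction (Go F p d) M] (hsm : C1Act (Go F p d) E M)
    (h : SmallOrbit (GoD F p d) M k) :
    (∀ g ∈ GoE F p d (4 * ∏ i, d i), ∀ y : M, g • y = y) ∧ FiniteAct (Go F p d) M :=
  main3 (tFin (Q190.ZO.tDecG Q190.ZO.tTra) Q190.ZO.tCen Q210.ZO.tPerf Pool.Agent.Q153.ZO.tNrm
    Q210.ZOD.tDg) Q210.ZOD.tDg Q150.ZO.tNC F p q k hp d hd E M hE hsm h

end Pool.Agent.Results.MP_d483fb_an.OrthogonalGroups
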