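import Mathlib
import Pool.Agent.Q23.ZB.Main

/-!
# Actions of elementary groups containing block diagonal quaternion matrices
-/

set_option autoImplicit false

open Matrix
open scoped Manifold ContDiff

namespace Pool.Agent.Results.MP_d483fb_an.QuaternionBlocks

open Q23.ZB Q4.ZI

/-- `R` a ring with finitely generated additive group, `2 ≠ 0` in `R`; `I`, `J` invertible
`m × m` matrices with `I² = J² = -1`, `I J = - J I`; `Γ` a group of invertible matrices of size
`m n + e ≥ 3` which contains the elementary matrices; `D` a finite `2`-subgroup of `Γ` which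
contains all block diagonal matrices with `n` blocks in the group generated by `I` and `J` and an
identity block of size `e`. `Γ` acts by `C^1` diffeomorphisms on a connected Hausdorff manifold
`M` modelled on `E`; `D` has an orbit of at most `2 ^ k` points or there is a finite
`D`-invariant triangulation of `M` with Euler characteristic not divisible by `2 ^ (k + 1)`. One
of the following: (1) `e > 0`, `dim E + 2 k < 4 n`; (2) `dim E + 2 k + 4 < 4 n`; (3) `k = 0`,
`n ≥ 3`, `dim E < 4 n` and `D` contains the swaps of the blocks `i` and `τ i` for a fixed point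
free involution `τ`; (4) `k = 0`, `dim E < 4 n + 2` and `D` contains a sign change of the `a`-th
of the last `e` coordinates and the swap of the `a`-th and the `b`-th of the last `e` coordinates,
`a ≠ b`. Then the matrices of level two act trivially and the image of the group generated by the
elementary matrices is finite. -/
theorem result (R : Type) [Ring R] [Module.Finite ℤ R] (h2 : (2 : R) ≠ 0) (m n e : ℕ)
    (hm : 0 < m) (hN : 3 ≤ m * n + e)
    (I J : GL (Fin m) R) (hI : I * I = -1) (hJ : J * J = -1) (hIJ : I * J = -(J * I))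
    (Γ : Subgroup (GL ((Fin m × Fin n) ⊕ Fin e) R)) (hΓ : El R ((Fin m × Fin n) ⊕ Fin e) ≤ Γ)
    (D : Subgroup Γ) (hfin : Finite D) (hD : IsPGroup 2 D)
    (hQ : ∀ h : Fin n → GL (Fin m) R, (∀ i, h i ∈ Subgroup.closure {I, J}) →
      Has D (fromBlocks (blockDiagonal fun i => (h i).1) 0 0 1))
    (k : ℕ)
    (E M : Type) [NormedAddCommGroup E] [NormedSpace ℝ E] [FiniteDimensional ℝ E]
    (hdim : (0 < e ∧ Module.finrank ℝ E + 2 * k < 4 * n) ∨
      Module.finrank ℝ E + 2 * k + 4 < 4 * n ∨
      (k = 0 ∧ 3 ≤ n ∧ Module.finrank ℝ E < 4 * n ∧ ∃ τ : Fin n → Fin n,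
        (∀ i, τ (τ i) = i ∧ τ i ≠ i) ∧ ∀ i, Has D (fromBlocks
          (Equiv.Perm.permMatrix R (Equiv.prodCongr (Equiv.refl (Fin m)) (Equiv.swap i (τ i))))
          0 0 1)) ∨
      (k = 0 ∧ Module.finrank ℝ E < 4 * n + 2 ∧ ∃ a b : Fin e, a ≠ b ∧
        Has D (fromBlocks 1 0 0 (diagonal (Function.update 1 a (-1)))) ∧
        Has D (fromBlocks 1 0 0 (Equiv.Perm.permMatrix R (Equiv.swap a b)))))
    [TopologicalSpace M] [T2Space M] [ConnectedSpace M] [ChartedSpace E M]
    [IsManifold 𝓘(ℝ, E) 1 M] [MulAction Γ M]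
    (hsm : ∀ g : Γ, ContMDiff 𝓘(ℝ, E) 𝓘(ℝ, E) 1 (fun y : M => g • y))
    (h : (∃ x : M, Nat.card (MulAction.orbit D x) ≤ 2 ^ k) ∨
      ∃ T : Tri D M, ¬ (2 : ℤ) ^ (k + 1) ∣ T.chi) :
    (∀ g : Γ, g.1 ∈ El2 R ((Fin m × Fin n) ⊕ Fin e) → ∀ y : M, g • y = y) ∧
      Finite (((El R ((Fin m × Fin n) ⊕ Fin e)).subgroupOf Γ).map
        (MulAction.toPermHom Γ M)) :=
  main h2 hm hN I J hI hJ hIJ Γ hΓ D hD hQ k E M hdim hsm h

end Pool.Agent.Results.MP_d483fb_an.QuaternionBlocks
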