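import Pool.Agent.Q4.ZI.Main
import Pool.Agent.Q4.ZI.Lin
import Pool.Agent.Q4.ZI.Loc
import Pool.Agent.Q4.ZI.Fin
import Pool.Agent.Q184.ZI.Dia

/-!
# Zimmer's conjecture for `E_n(O)`, `O` containing roots of unity
-/

open Matrix NumberField
open scoped Manifold ContDiff

namespace Pool.Agent.Results.MP_d483fb_an.RootsOfUnity

open Q4.ZI

/-- Let `F` be a number field which contains a primitive `p`-th root of unity, `p` an odd prime, or
`i` if `p = 2`; `O` its ring of integers, `n ≥ 3`, `Γ = En O n` the group generated by the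
elementary matrices and `D = Dg O q n` the finite `p`-group of the diagonal matrices in `Γ` whose
entries are `q`-th roots of unity, `q = p` (`q = 4` if `p = 2`). Let `Γ` act by `C^1`
diffeomorphisms on a connected manifold `M` of dimension `< 2 (n - 1)` (`< 2 (n - 2)` if `p ∣ n`).
Suppose that `D` fixes a point of `M`, or that `M` has a finite triangulation invariant under `D`
whose Euler characteristic is not divisible by `p`. Then `Γ` acts on `M` through a finite group;
more precisely, `En O n (1 - ζ)` acts trivially, `ζ` a primitive `p`-th root of unity. -/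
theorem result (F : Type) [Field F] [NumberField F] (p : ℕ) (hp : p.Prime)
    (ζ : F) (hζ : IsPrimitiveRoot ζ (qq p)) (n : ℕ) (hn : 3 ≤ n)
    (E M : Type) [NormedAddCommGroup E] [NormedSpace ℝ E] [FiniteDimensional ℝ E]
    (hE : Module.finrank ℝ E < 2 * (n - 1)) (hpn : p ∣ n → Module.finrank ℝ E < 2 * (n - 2))
    [TopologicalSpace M] [T2Space M] [ConnectedSpace M] [ChartedSpace E M]
    [IsManifold 𝓘(ℝ, E) 1 M] [MulAction (En (𝓞 F) n) M]
    (hsm : ∀ g : En (𝓞 F) n, ContMDiff 𝓘(ℝ, E) 𝓘(ℝ, E) 1 (fun y : M => g • y))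
    (h : (∃ x : M, ∀ g ∈ Dg (𝓞 F) (qq p) n, g • x = x) ∨
      ∃ T : Tri (Dg (𝓞 F) (qq p) n) M, ¬ (p : ℤ) ∣ T.chi) :
    (∀ ζ' : 𝓞 F, IsPrimitiveRoot ζ' p → ∀ g : En (𝓞 F) n, g.1 ∈ EE (𝓞 F) n (1 - ζ') →
      ∀ y : M, g • y = y) ∧ Finite (MulAction.toPermHom (En (𝓞 F) n) M).range := by
  have hq : NeZero (qq p) := by
    constructor
    unfold qq
    split_ifs
    · norm_num
    · exact hp.ne_zero
  exact main tFin tLin tLoc Q184.ZI.tDia F p hp hζ.toInteger hζ.toInteger_isPrimitiveRoot n hn E M hE hpn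
    hsm h

end Pool.Agent.Results.MP_d483fb_an.RootsOfUnity
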